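import Pool.Agent.H90.G.S8.H914R2.KDefs2

/-!
# The decomposition theorem and the relative hard Lefschetz theorem in cohomology: definitions
-/

open CategoryTheory AlgebraicGeometry

universe u v

namespace Pool.Agent.W498.Dom

open Pool.Agent.H914

section Alg

variable {K : Type*} [Field K]

section Mod

variable {V : Type*} [AddCommGroup V] [Module K V]

/-- The sum of the subspaces `P q` with `q < a`. -/
def below (P : ℕ → Submodule K V) (a : ℕ) : Submodule K V := ⨆ q, ⨆ _ : q < a, P q

/-- Relative hard Lefschetz: for `i ≤ m` the power `e ^ (m - i)` induces a bijection from `P i`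
to the quotient of the sum of the `P q` with `q ≤ 2 m - i` by the sum of those with
`q < 2 m - i`, that is to `P (2 m - i)`. -/
def RelHardLef (P : ℕ → Submodule K V) (m : ℕ) (e : Module.End K V) : Prop :=
  ∀ i ≤ m, (∀ a ∈ P i, (e ^ (m - i)) a ∈ below P (2 * m - i) → a = 0) ∧
    ∀ b ∈ P (2 * m - i), ∃ a ∈ P i, (e ^ (m - i)) a - b ∈ below P (2 * m - i)

end Mod

variable {A : Type*} [Ring A] [Algebra K A]

/-- The subspaces `piece p` of the graded algebra `A` (the cohomology of a variety `Y` of dimension
`m`) form a perverse decomposition with respect to the subset `R` of `A` (the image of the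
cohomology of a variety `X` under a morphism `Y ⟶ X`), an element `h` (the class of a divisor on
`X`) and an element `e` (the class of a divisor on `Y`). -/
structure IsPerverse (gr : ℕ → Submodule K A) (R : Set A) (h e : A) (m : ℕ)
    (piece : ℕ → Submodule K A) : Prop where
  /-- the cohomology of `Y` is the direct sum of the pieces -/
  isInternal : DirectSum.IsInternal piece
  /-- the pieces are graded subspaces -/
  graded : ∀ p, piece p ≤ ⨆ j, piece p ⊓ gr j
  /-- the pieces are submodules over the cohomology of `X` -/
  smul_mem : ∀ p, ∀ y ∈ R, ∀ x ∈ piece p, y * x ∈ piece p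
  /-- `H^i(X, R_p) = 0` for `i > p`, since `H^(-i)(X, R_p)` lies in `H^(p - i)(Y)` -/
  eq_bot : ∀ p j, 2 * p < j → piece p ⊓ gr j = ⊥
  /-- the hard Lefschetz theorem on `X` with coefficients in the perverse sheaf `R_p`: the power
  `i` of `h` maps `H^(-i)(X, R_p)` bijectively to `H^i(X, R_p)` -/
  hardLef : ∀ p, HardLef (fun j => piece p ⊓ gr j) p (LinearMap.mulLeft K h)
  /-- the class `e` raises the perverse degree by at most two -/
  mul_mem : ∀ p, ∀ x ∈ piece p, e * x ∈ below piece (p + 3)
  /-- the relative hard Lefschetz theorem: the power `i` of `e` maps `R_(m - i)` isomorphically to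
  `R_(m + i)` -/
  relHardLef : RelHardLef piece m (LinearMap.mulLeft K e)

end Alg

open VarClass Obj WeilCohomology

variable {k : Type u} [Field k] {𝒱 : VarClass k} {ops : CycleOps 𝒱}

/-- The decomposition theorem and the relative hard Lefschetz theorem of Beilinson, Bernstein,
Deligne and Gabber for the morphism `f : Y ⟶ X`, the divisor `D` on `X` and the divisor `E` on `Y`,
in the form of their consequences for the cohomology `H(Y)`. In the `ℓ`-adic theory, for `D` ample
and `E` relatively ample, the subspace `piece p` is the contribution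
`⨁ j, H^(j - p)(X, R_p) ⊆ ⨁ j, H^j(Y)` of the perverse cohomology sheaf
`R_p = ᵖH^p(Rf_* ℚ_ℓ)` to the cohomology of `Y`, for a decomposition
`Rf_* ℚ_ℓ = ⨁ p, R_p[-p]`. -/
structure PerverseDecomposition (W : WeilCohomology.{u, v} ops) {Y X : 𝒱.Obj} (f : Y ⟶ X)
    (D : X.Cycles) (E : Y.Cycles) where
  /-- the contribution of the perverse cohomology sheaf in degree `p` -/
  piece : ℕ → Submodule W.K (W.H Y)
  /-- the properties of the pieces -/
  isPerverse : IsPerverse (W.gr Y) (Set.range (W.map f)) (W.map f (W.cl X D)) (W.cl Y E) Y.dim piece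

/-- The morphism `f : Y ⟶ X` is dominant: the direct image of some cycle with rational
coefficients on `Y` is the fundamental cycle of `X`. -/
def IsDominant (ops : CycleOps 𝒱) {Y X : 𝒱.Obj} (f : Y ⟶ X) : Prop :=
  ∃ (p : ℕ) (w : Y.Cycles), Y.IsCyc p w ∧ ops.push f w = X.V.fundCycle

end Pool.Agent.W498.Dom
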