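import Mathlib

/-!
# Polynomial families of linear maps
-/

open Polynomial

namespace Pool.Agent.W498.Dom

variable {K : Type*} [Field K]

section

variable {E F G : Type*} [AddCommGroup E] [Module K E] [AddCommGroup F] [Module K F]
  [AddCommGroup G] [Module K G]

/-- A polynomial family of vectors. -/
def PVec (v : K → F) : Prop := ∀ l : F →ₗ[K] K, ∃ p : K[X], ∀ s, l (v s) = p.eval s

/-- A polynomial family of linear maps. -/
def PFam (A : K → E →ₗ[K] F) : Prop := ∀ x : E, PVec (fun s => A s x)

lemma PVec.const (v : F) : PVec (fun _ : K => v) := fun l => ⟨C (l v), fun s => by simp⟩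

lemma PVec.add {v w : K → F} (hv : PVec v) (hw : PVec w) : PVec (fun s => v s + w s) := by
  intro l
  obtain ⟨p, hp⟩ := hv l
  obtain ⟨q, hq⟩ := hw l
  exact ⟨p + q, fun s => by rw [map_add, hp, hq, eval_add]⟩

lemma PVec.smul {v : K → F} (hv : PVec v) (r : K[X]) : PVec (fun s => r.eval s • v s) := by
  intro l
  obtain ⟨p, hp⟩ := hv l
  exact ⟨r * p, fun s => by rw [map_smul, hp, eval_mul, smul_eq_mul]⟩

lemma PVec.csmul {v : K → F} (hv : PVec v) (c : K) : PVec (fun s => c • v s) := by
  have := hv.smul (C c)
  simpa using this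

lemma PVec.sub {v w : K → F} (hv : PVec v) (hw : PVec w) : PVec (fun s => v s - w s) := by
  intro l
  obtain ⟨p, hp⟩ := hv l
  obtain ⟨q, hq⟩ := hw l
  exact ⟨p - q, fun s => by rw [map_sub, hp, hq, eval_sub]⟩

lemma PVec.sum {ι : Type*} {t : Finset ι} {v : ι → K → F} (h : ∀ i ∈ t, PVec (v i)) :
    PVec (fun s => ∑ i ∈ t, v i s) := by
  classical
  induction t using Finset.induction_on with
  | empty => simpa using PVec.const (0 : F)
  | insert a t ha ih =>
    have h1 := (h a (by simp)).add (ih (fun i hi => h i (by simp [hi])))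
    simpa [Finset.sum_insert ha] using h1

lemma PVec.map {v : K → E} (hv : PVec v) (A : E →ₗ[K] F) : PVec (fun s => A (v s)) :=
  fun l => hv (l ∘ₗ A)

/-- Substitution `s ↦ a s`. -/
lemma PVec.scale {v : K → F} (hv : PVec v) (a : K) : PVec (fun s => v (a * s)) := by
  intro l
  obtain ⟨p, hp⟩ := hv l
  exact ⟨p.comp (C a * X), fun s => by rw [hp, eval_comp]; simp⟩

lemma PFam.const (A : E →ₗ[K] F) : PFam (fun _ : K => A) := fun _ => PVec.const _

lemma PFam.add {A B : K → E →ₗ[K] F} (hA : PFam A) (hB : PFam B) : PFam (fun s => A s + B s) :=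
  fun x => (hA x).add (hB x)

lemma PFam.sub {A B : K → E →ₗ[K] F} (hA : PFam A) (hB : PFam B) : PFam (fun s => A s - B s) :=
  fun x => (hA x).sub (hB x)

lemma PFam.smul {A : K → E →ₗ[K] F} (hA : PFam A) (r : K[X]) : PFam (fun s => r.eval s • A s) :=
  fun x => (hA x).smul r

lemma PFam.csmul {A : K → E →ₗ[K] F} (hA : PFam A) (c : K) : PFam (fun s => c • A s) :=
  fun x => (hA x).csmul c

lemma PFam.sum {ι : Type*} {t : Finset ι} {A : ι → K → E →ₗ[K] F} (h : ∀ i ∈ t, PFam (A i)) :
    PFam (fun s => ∑ i ∈ t, A i s) := by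
  intro x
  have := PVec.sum (t := t) (v := fun i s => A i s x) (fun i hi => h i hi x)
  simpa [LinearMap.sum_apply] using this

lemma PFam.scale {A : K → E →ₗ[K] F} (hA : PFam A) (a : K) : PFam (fun s => A (a * s)) :=
  fun x => (hA x).scale a

lemma PFam.apply [Module.Finite K E] {A : K → E →ₗ[K] F} (hA : PFam A) {v : K → E}
    (hv : PVec v) : PVec (fun s => A s (v s)) := by
  set b := Module.finBasis K E with hb
  have h1 : (fun s => A s (v s)) = fun s => ∑ i, (b.coord i (v s)) • A s (b i) := by
    funext s
    conv_lhs => rw [← b.sum_repr (v s)]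
    rw [map_sum]
    apply Finset.sum_congr rfl
    intro i _
    rw [map_smul, Module.Basis.coord_apply]
  rw [h1]
  apply PVec.sum
  intro i _
  obtain ⟨p, hp⟩ := hv (b.coord i)
  have := (hA (b i)).smul p
  simpa only [hp] using this

lemma PFam.comp [Module.Finite K F] {A : K → F →ₗ[K] G} {B : K → E →ₗ[K] F} (hA : PFam A)
    (hB : PFam B) : PFam (fun s => A s ∘ₗ B s) := fun x => hA.apply (hB x)

lemma PFam.mul [Module.Finite K E] {A B : K → Module.End K E} (hA : PFam A) (hB : PFam B) :
    PFam (fun s => A s * B s) := hA.comp hB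

lemma PFam.pow [Module.Finite K E] {A : K → Module.End K E} (hA : PFam A) (c : ℕ) :
    PFam (fun s => A s ^ c) := by
  induction c with
  | zero => simpa using PFam.const (1 : Module.End K E)
  | succ c ih =>
    simp only [pow_succ]
    exact ih.mul hA

/-- The polynomial matrix of a polynomial family of endomorphisms. -/
lemma PFam.exists_matrix [Module.Finite K E] {A : K → Module.End K E} (hA : PFam A) :
    ∃ P : Matrix (Fin (Module.finrank K E)) (Fin (Module.finrank K E)) K[X],
      ∀ s, P.map (eval s) = LinearMap.toMatrix (Module.finBasis K E) (Module.finBasis K E) (A s) := by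
  set b := Module.finBasis K E with hb
  choose P hP using fun j i => hA (b j) (b.coord i)
  refine ⟨Matrix.of fun i j => P j i, fun s => ?_⟩
  ext i j
  rw [Matrix.map_apply, Matrix.of_apply, ← hP, LinearMap.toMatrix_apply, Module.Basis.coord_apply]

/-- **Generic injectivity.** -/
theorem PFam.generic_inj [Module.Finite K E] {A : K → E →ₗ[K] F} (hA : PFam A)
    (h0 : Function.Injective (A 0)) :
    ∃ p : K[X], p ≠ 0 ∧ ∀ s, p.eval s ≠ 0 → Function.Injective (A s) := by
  obtain ⟨G, hG⟩ := LinearMap.exists_leftInverse_of_injective (A 0) (LinearMap.ker_eq_bot.2 h0)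
  have hfam : PFam (fun s => (G ∘ₗ A s : Module.End K E)) := fun x => (hA x).map G
  obtain ⟨P, hP⟩ := hfam.exists_matrix
  have hdet : ∀ s, P.det.eval s = LinearMap.det (G ∘ₗ A s : Module.End K E) := by
    intro s
    have h1 : P.det.eval s = (P.map (eval s)).det := by
      have := RingHom.map_det (evalRingHom s) P
      simpa using this
    rw [h1, hP, LinearMap.det_toMatrix]
  refine ⟨P.det, ?_, ?_⟩
  · intro h
    have := hdet 0
    rw [h, eval_zero, hG, LinearMap.det_id] at this
    exact zero_ne_one this
  · intro s hs x y hxy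
    rw [hdet] at hs
    have h2 : IsUnit (LinearMap.det (G ∘ₗ A s : Module.End K E)) := isUnit_iff_ne_zero.2 hs
    have h3 := (LinearMap.isUnit_iff_isUnit_det (G ∘ₗ A s : Module.End K E)).2 h2
    have h4 : Function.Injective (G ∘ₗ A s : Module.End K E) :=
      ((Module.End.isUnit_iff _).1 h3).1
    apply h4
    rw [LinearMap.comp_apply, LinearMap.comp_apply, hxy]

/-- **Solutions of polynomial linear systems.** -/
theorem PFam.solve [Module.Finite K E] {A : K → E →ₗ[K] F} (hA : PFam A)
    (h0 : Function.Injective (A 0)) (w : F) :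
    ∃ (q : K[X]) (v : K → E), q.eval 0 ≠ 0 ∧ PVec v ∧
      ∀ s x, A s x = w → q.eval s • x = v s := by
  obtain ⟨G, hG⟩ := LinearMap.exists_leftInverse_of_injective (A 0) (LinearMap.ker_eq_bot.2 h0)
  have hfam : PFam (fun s => (G ∘ₗ A s : Module.End K E)) := fun x => (hA x).map G
  obtain ⟨P, hP⟩ := hfam.exists_matrix
  set b := Module.finBasis K E with hb
  have hdet : ∀ s, P.det.eval s = LinearMap.det (G ∘ₗ A s : Module.End K E) := by
    intro s
    have h1 : P.det.eval s = (P.map (eval s)).det := by
      have := RingHom.map_det (evalRingHom s) P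
      simpa using this
    rw [h1, hP, LinearMap.det_toMatrix]
  refine ⟨P.det, fun s => ∑ i, (∑ j, (P.adjugate i j).eval s * b.coord j (G w)) • b i, ?_, ?_, ?_⟩
  · rw [hdet 0, hG, LinearMap.det_id]
    exact one_ne_zero
  · apply PVec.sum
    intro i _
    have h1 := (PVec.const (K := K) (b i)).smul (∑ j, P.adjugate i j * C (b.coord j (G w)))
    have h2 : (fun s => (∑ j, P.adjugate i j * C (b.coord j (G w))).eval s • b i) =
        fun s => (∑ j, (P.adjugate i j).eval s * b.coord j (G w)) • b i := by
      funext s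
      rw [eval_finsetSum]
      simp
    rw [h2] at h1
    exact h1
  · intro s x hx
    -- in coordinates
    have h1 : (P.map (eval s)).mulVec (b.equivFun x) = b.equivFun (G w) := by
      rw [hP]
      have := LinearMap.toMatrix_mulVec_repr b b (G ∘ₗ A s : Module.End K E) x
      have h2 : (G ∘ₗ A s : Module.End K E) x = G w := by rw [LinearMap.comp_apply, hx]
      rw [h2] at this
      exact this
    have h3 : (P.map (eval s)).adjugate = P.adjugate.map (eval s) := by
      have := RingHom.map_adjugate (evalRingHom s) P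
      simpa using this.symm
    have h4 : (P.map (eval s)).adjugate.mulVec ((P.map (eval s)).mulVec (b.equivFun x)) =
        P.det.eval s • b.equivFun x := by
      rw [Matrix.mulVec_mulVec, Matrix.adjugate_mul, Matrix.smul_mulVec, Matrix.one_mulVec]
      have h5 : P.det.eval s = (P.map (eval s)).det := by
        have := RingHom.map_det (evalRingHom s) P
        simpa using this
      rw [h5]
    rw [h1, h3] at h4
    apply b.equivFun.injective
    rw [map_smul, ← h4]
    funext i
    rw [map_sum, Finset.sum_apply, Finset.sum_eq_single i]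
    · rw [map_smul, Pi.smul_apply, Module.Basis.equivFun_self, if_pos rfl, smul_eq_mul, mul_one]
      rfl
    · intro j _ hj
      rw [map_smul, Pi.smul_apply, Module.Basis.equivFun_self, if_neg hj, smul_zero]
    · intro h; exact absurd (Finset.mem_univ _) h

end

/-- Finitely many nonzero polynomials have a common non-root different from zero. -/
lemma exists_nonroot [CharZero K] (p : K[X]) (hp : p ≠ 0) : ∃ s : K, s ≠ 0 ∧ p.eval s ≠ 0 := by
  have h1 : (X * p : K[X]) ≠ 0 := mul_ne_zero X_ne_zero hp
  obtain ⟨s, hs⟩ := Polynomial.exists_eval_ne_zero_of_natDegree_lt_card (X * p) h1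
    (by
      have : Cardinal.aleph0 ≤ Cardinal.mk K := Cardinal.infinite_iff.1 inferInstance
      exact lt_of_lt_of_le (Cardinal.natCast_lt_aleph0) this)
  rw [eval_mul, eval_X] at hs
  exact ⟨s, left_ne_zero_of_mul hs, right_ne_zero_of_mul hs⟩

end Pool.Agent.W498.Dom
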