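import Pool.Agent.H90.G.S8.H447R3.AoC
import Pool.Agent.H90.G.S8.H914R2.Crit
import Pool.Agent.H90.G.S8.W534.Hyp
import Pool.Agent.H90.G.S8.W498.Dom.Core
import Pool.Agent.H90.G.S8.W498.Dom.Defs

/-!
# The Lefschetz standard conjecture for dominated varieties
-/

open CategoryTheory AlgebraicGeometry Finset

set_option linter.unusedSectionVars false

universe u v

namespace Pool.Agent.W498.Dom

open Pool.Agent.H914 Pool.Agent.H447

section Alg

variable {K : Type*} [Field K] [CharZero K] {V : Type*} [AddCommGroup V] [Module K V]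
  {P : ℕ → Submodule K V} {m : ℕ} {e : Module.End K V}

lemma sumP' (iP : DirectSum.IsInternal P) (bP : ∀ i, 2 * m + 1 ≤ i → P i = ⊥) (v : V) :
    v = ∑ p ∈ range (2 * m + 1), proj iP p v := by
  conv_lhs => rw [show v = (1 : Module.End K V) v from rfl, ← sum_proj iP bP]
  rw [LinearMap.sum_apply]

lemma top_apply' (iP : DirectSum.IsInternal P) (bP : ∀ i, 2 * m + 1 ≤ i → P i = ⊥) {p : ℕ} {v : V}
    (hv : v ∈ P p) : top iP m e v = proj iP (p + 2) (e v) := by
  by_cases hp : p < 2 * m + 1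
  · rw [top, LinearMap.sum_apply, Finset.sum_eq_single p]
    · rw [Module.End.mul_apply, Module.End.mul_apply, proj_same iP hv]
    · intro q _ hq
      rw [Module.End.mul_apply, proj_ne iP hv (Ne.symm hq), map_zero]
    · intro h'; exact absurd (Finset.mem_range.2 hp) h'
  · rw [bP p (by omega)] at hv
    rw [(Submodule.mem_bot _).1 hv, map_zero, map_zero, map_zero]

lemma level' (iP : DirectSum.IsInternal P) (bP : ∀ i, 2 * m + 1 ≤ i → P i = ⊥)
    (eP : ∀ p, ∀ v ∈ P p, ∀ q, p + 2 < q → proj iP q (e v) = 0) {a k : ℕ} {v : V}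
    (hv : ∀ q, a < q → proj iP q v = 0) :
    ∀ q, a + 2 * k < q → proj iP q ((e ^ k) v) = 0 := by
  induction k with
  | zero => simpa using hv
  | succ k ih =>
    intro q hq
    rw [pow_succ', Module.End.mul_apply, sumP' iP bP ((e ^ k) v), map_sum, map_sum]
    apply Finset.sum_eq_zero
    intro p _
    by_cases hp : a + 2 * k < p
    · rw [ih p hp, map_zero, map_zero]
    · exact eP p _ (proj_mem iP p _) q (by omega)

lemma top_pow' (iP : DirectSum.IsInternal P) (bP : ∀ i, 2 * m + 1 ≤ i → P i = ⊥)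
    (eP : ∀ p, ∀ v ∈ P p, ∀ q, p + 2 < q → proj iP q (e v) = 0) {p : ℕ} {v : V}
    (hv : v ∈ P p) (k : ℕ) : (top iP m e ^ k) v = proj iP (p + 2 * k) ((e ^ k) v) := by
  induction k with
  | zero => simp [proj_same iP hv]
  | succ k ih =>
    rw [pow_succ', Module.End.mul_apply, ih, top_apply' iP bP (proj_mem iP _ _), pow_succ',
      Module.End.mul_apply]
    conv_rhs => rw [sumP' iP bP ((e ^ k) v), map_sum, map_sum]
    by_cases hr : p + 2 * k < 2 * m + 1
    · rw [Finset.sum_eq_single (p + 2 * k)]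
      · rfl
      · intro q _ hq
        by_cases hq' : p + 2 * k < q
        · rw [level' iP bP eP (fun q' hq' => proj_ne iP hv (by omega)) q hq', map_zero, map_zero]
        · exact eP q _ (proj_mem iP q _) _ (by omega)
      · intro h'; exact absurd (Finset.mem_range.2 hr) h'
    · rw [Finset.sum_eq_zero]
      · have h1 := proj_mem iP (p + 2 * k + 2) (e (proj iP (p + 2 * k) ((e ^ k) v)))
        rw [bP _ (by omega)] at h1
        exact (Submodule.mem_bot _).1 h1
      · intro q hq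
        have h1 := proj_mem iP (p + 2 * (k + 1)) (e (proj iP q ((e ^ k) v)))
        rw [bP _ (by omega)] at h1
        exact (Submodule.mem_bot _).1 h1

lemma mem_below (iP : DirectSum.IsInternal P) (bP : ∀ i, 2 * m + 1 ≤ i → P i = ⊥) {a : ℕ} {v : V} :
    v ∈ below P a ↔ ∀ q, a ≤ q → proj iP q v = 0 := by
  constructor
  · intro hv q hq
    refine Submodule.iSup_induction (fun q => ⨆ _ : q < a, P q)
      (motive := fun v => proj iP q v = 0) hv ?_ ?_ ?_
    · intro q' x hx
      by_cases hq' : q' < a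
      · have hx' : x ∈ P q' := by simpa [hq'] using hx
        exact proj_ne iP hx' (by omega)
      · have hx' : x = 0 := by simpa [hq'] using hx
        rw [hx', map_zero]
    · exact map_zero _
    · intro x y hx hy
      rw [map_add, hx, hy, add_zero]
  · intro hv
    rw [sumP' iP bP v]
    apply Submodule.sum_mem
    intro q _
    by_cases hq : a ≤ q
    · rw [hv q hq]; exact Submodule.zero_mem _
    · apply Submodule.mem_iSup_of_mem q
      apply Submodule.mem_iSup_of_mem (by omega)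
      exact proj_mem iP q v

/-- Relative hard Lefschetz in terms of the leading term. -/
lemma hardLef_top (iP : DirectSum.IsInternal P) (bP : ∀ i, 2 * m + 1 ≤ i → P i = ⊥)
    (eP : ∀ p, ∀ v ∈ P p, ∀ q, p + 2 < q → proj iP q (e v) = 0) (h : RelHardLef P m e) :
    HardLef P m (top iP m e) := by
  intro i hi
  have hk : i + 2 * (m - i) = 2 * m - i := by omega
  constructor
  · intro a ha h0
    apply (h i hi).1 a ha
    rw [top_pow' iP bP eP ha, hk] at h0
    rw [mem_below iP bP]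
    intro q hq
    by_cases hq' : q = 2 * m - i
    · rw [hq']; exact h0
    · exact level' iP bP eP (a := i) (fun q' hq' => proj_ne iP ha (by omega)) q (by omega)
  · intro b hb
    obtain ⟨a, ha, hab⟩ := (h i hi).2 b hb
    refine ⟨a, ha, ?_⟩
    rw [mem_below iP bP] at hab
    have h1 := hab (2 * m - i) le_rfl
    rw [map_sub, proj_same iP hb, sub_eq_zero] at h1
    rw [top_pow' iP bP eP ha, hk, h1]

end Alg

open VarClass Obj WeilCohomology

variable {k : Type u} [Field k] {𝒱 : VarClass k} {ops : CycleOps 𝒱}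
  {W : WeilCohomology.{u, v} ops} {Y X : 𝒱.Obj} {f : Y ⟶ X} {D : X.Cycles} {E : Y.Cycles}

/-- The operator on the cohomology of `Y` given by the class of `D`. -/
noncomputable abbrev hop (W : WeilCohomology.{u, v} ops) {Y X : 𝒱.Obj} (f : Y ⟶ X)
    (D : X.Cycles) : Module.End W.K (W.H Y) := LinearMap.mulLeft W.K (W.map f (W.cl X D))

/-- The operator on the cohomology of `Y` given by the class of `E`. -/
noncomputable abbrev eop (W : WeilCohomology.{u, v} ops) (Y : 𝒱.Obj) (E : Y.Cycles) :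
    Module.End W.K (W.H Y) := LinearMap.mulLeft W.K (W.cl Y E)

lemma isHom_hop (hD : X.IsCyc 1 D) : IsHom (W.gr Y) 2 (hop W f D) := by
  have := isHom_mulLeft W (ops.pull_mem f hD)
  rwa [W.cl_pull] at this

lemma kop_hop (hD : X.IsCyc 1 D) : hop W f D ∈ KOp W Y Y 1 := by
  have := Pool.Agent.W534.kop_L (W := W) (ops.pull_mem f hD)
  rwa [W.cl_pull] at this

lemma hop_pow (j : ℕ) (x : W.H Y) : (hop W f D ^ j) x = W.map f (W.cl X D ^ j) * x := by
  induction j with
  | zero => simp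
  | succ j ih =>
    rw [pow_succ', Module.End.mul_apply, ih, LinearMap.mulLeft_apply, pow_succ', map_mul, mul_assoc]

lemma eop_pow (j : ℕ) (x : W.H Y) : (eop W Y E ^ j) x = W.cl Y E ^ j * x := by
  induction j with
  | zero => simp
  | succ j ih =>
    rw [pow_succ', Module.End.mul_apply, ih, LinearMap.mulLeft_apply, pow_succ', mul_assoc]

namespace PerverseDecomposition

variable (Q : PerverseDecomposition W f D E)

lemma isInternal : DirectSum.IsInternal Q.piece := Q.isPerverse.isInternal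

lemma graded (p : ℕ) : Q.piece p ≤ ⨆ j, Q.piece p ⊓ W.gr Y j := Q.isPerverse.graded p

lemma smul_mem (p : ℕ) (y : W.H X) (x : W.H Y) (hx : x ∈ Q.piece p) :
    W.map f y * x ∈ Q.piece p := Q.isPerverse.smul_mem p _ ⟨y, rfl⟩ x hx

lemma eq_bot (p j : ℕ) (h : 2 * p < j) : Q.piece p ⊓ W.gr Y j = ⊥ := Q.isPerverse.eq_bot p j h

lemma hardLef (p : ℕ) : HardLef (fun j => Q.piece p ⊓ W.gr Y j) p
    (LinearMap.mulLeft W.K (W.map f (W.cl X D))) := Q.isPerverse.hardLef p

lemma mul_mem (p : ℕ) (x : W.H Y) (hx : x ∈ Q.piece p) : W.cl Y E * x ∈ below Q.piece (p + 3) :=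
  Q.isPerverse.mul_mem p x hx

lemma relHardLef : RelHardLef Q.piece Y.dim (LinearMap.mulLeft W.K (W.cl Y E)) :=
  Q.isPerverse.relHardLef

end PerverseDecomposition

section

variable (Q : PerverseDecomposition W f D E)

include Q

lemma dbP (hD : X.IsCyc 1 D) (i : ℕ) (hi : 2 * Y.dim + 1 ≤ i) : Q.piece i = ⊥ := by
  rw [eq_bot_iff]
  refine (Q.graded i).trans (iSup_le fun j => ?_)
  rintro v ⟨hv, hj⟩
  rw [Submodule.mem_bot]
  by_cases h1 : 2 * Y.dim < j
  · rw [W.gr_eq_bot Y j h1] at hj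
    exact (Submodule.mem_bot _).1 hj
  · apply (Q.hardLef i j (by omega)).1 v ⟨hv, hj⟩
    have h2 := pow_L_mem (isHom_hop (f := f) (W := W) hD) hj (i - j)
    rw [W.gr_eq_bot Y _ (by omega)] at h2
    exact (Submodule.mem_bot _).1 h2

lemma dhom (p j : ℕ) (v : W.H Y) (hv : v ∈ Q.piece p) : proj (W.isInternal Y) j v ∈ Q.piece p := by
  refine Submodule.iSup_induction (fun j => Q.piece p ⊓ W.gr Y j)
    (motive := fun v => proj (W.isInternal Y) j v ∈ Q.piece p) (Q.graded p hv) ?_ ?_ ?_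
  · rintro i x ⟨hx, hxi⟩
    by_cases hij : i = j
    · subst hij; rw [proj_same _ hxi]; exact hx
    · rw [proj_ne _ hxi hij]; exact Submodule.zero_mem _
  · rw [map_zero]; exact Submodule.zero_mem _
  · intro x y hx hy
    rw [map_add]; exact Submodule.add_mem _ hx hy

lemma deP (hD : X.IsCyc 1 D) (p : ℕ) (v : W.H Y) (hv : v ∈ Q.piece p) (q : ℕ) (hq : p + 2 < q) :
    proj Q.isInternal q (eop W Y E v) = 0 :=
  (mem_below Q.isInternal (dbP Q hD)).1 (Q.mul_mem p v hv) q (by omega)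

/-- The linear algebra of the decomposition theorem. -/
lemma setup (hD : X.IsCyc 1 D) (hE : Y.IsCyc 1 E) {m : ℕ} (hm : Y.dim = m) :
    Setup (W.gr Y) Q.piece m (hop W f D) (eop W Y E) := by
  subst hm
  exact
  { igr := W.isInternal Y
    iP := Q.isInternal
    bgr := fun i hi => W.gr_eq_bot Y i (by omega)
    bP := dbP Q hD
    hom := dhom Q
    hgr := isHom_hop hD
    egr := isHom_mulLeft W hE
    hP := fun p v hv => Q.smul_mem p _ v hv
    he := by
      apply LinearMap.ext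
      intro x
      rw [Module.End.mul_apply, Module.End.mul_apply]
      simp only [LinearMap.mulLeft_apply]
      rw [← mul_assoc, ← mul_assoc, W.even_comm (W.map_mem f (W.cl_mem hD))]
    eP := deP Q hD
    hl := Q.hardLef
    van := Q.eq_bot
    rl := hardLef_top Q.isInternal (dbP Q hD) (deP Q hD) Q.relHardLef }

end

/-- The trace is injective in the top degree. -/
lemma tr_top_inj {a : W.H Y} (ha : a ∈ W.gr Y (2 * Y.dim)) (h0 : W.tr Y a = 0) : a = 0 := by
  apply W.nondeg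
  intro b
  refine gr_induction (W.isInternal Y) (p := fun b => W.tr Y (a * b) = 0) ?_ ?_ b
  · intro j b hb
    rcases Nat.eq_zero_or_pos j with rfl | hj
    · rw [W.gr_zero, Submodule.mem_span_singleton] at hb
      obtain ⟨c, rfl⟩ := hb
      rw [mul_smul_comm, mul_one, map_smul, h0, smul_zero]
    · exact W.tr_eq_zero (W.mul_mem ha hb) (by omega)
  · intro b b' hb hb'
    rw [mul_add, map_add, hb, hb', add_zero]

lemma map_inj (hf : IsDominant ops f) {a : W.H X} (ha : W.map f a = 0) : a = 0 := by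
  obtain ⟨p, w, -, hw⟩ := hf
  have h1 := W.push_mul f (W.cl Y w) a
  rw [ha, mul_zero, map_zero, ← W.cl_push, hw, W.cl_fund, one_mul] at h1
  exact h1.symm

lemma xi_ne (hHL : HardLefschetz W X D) (h1 : (1 : W.H X) ≠ 0) : W.cl X D ^ X.dim ≠ 0 := by
  intro h0
  apply h1
  apply (hHL 0 (Nat.zero_le _)).1 1 (W.one_mem X)
  rw [Nat.sub_zero, LinearMap.pow_mulLeft, LinearMap.mulLeft_apply, h0, zero_mul]

lemma xi_mem (hD : X.IsCyc 1 D) (j : ℕ) : W.cl X D ^ j ∈ W.gr X (2 * j) := by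
  induction j with
  | zero => simpa using W.one_mem X
  | succ j ih =>
    rw [pow_succ]
    have := W.mul_mem ih (W.cl_mem hD)
    rwa [show 2 * j + 2 * 1 = 2 * (j + 1) by ring] at this

section

variable (Q : PerverseDecomposition W f D E) (hD : X.IsCyc 1 D) (hE : Y.IsCyc 1 E)
  (hHL : HardLefschetz W X D) (hf : IsDominant ops f) (h1 : (1 : W.H X) ≠ 0)

include Q hD hE hHL hf h1

lemma one_piece : (1 : W.H Y) ∈ Q.piece X.dim := by
  have S := setup Q hD hE rfl
  have hne : ∀ p, p ≠ X.dim → proj Q.isInternal p (1 : W.H Y) = 0 := by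
    intro p hp
    have hmem : proj Q.isInternal p (1 : W.H Y) ∈ Q.piece p ⊓ W.gr Y 0 :=
      ⟨proj_mem _ _ _, S.projP_gr (W.one_mem Y) p⟩
    rcases lt_or_gt_of_ne hp with hlt | hgt
    · -- small perverse degree
      have h2 : (hop W f D ^ X.dim) (proj Q.isInternal p 1) = 0 := by
        have h3 : (hop W f D ^ X.dim) (proj Q.isInternal p 1) ∈
            Q.piece p ⊓ W.gr Y (2 * X.dim) := by
          refine ⟨?_, ?_⟩
          · rw [S.pow_h_projP]; exact proj_mem _ _ _
          · have := pow_L_mem (isHom_hop (f := f) (W := W) hD) hmem.2 X.dim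
            rwa [zero_add] at this
        rw [Q.eq_bot p _ (by omega)] at h3
        exact (Submodule.mem_bot _).1 h3
      obtain ⟨c, hc⟩ := Submodule.mem_span_singleton.1 (by
        rw [← W.gr_zero]; exact hmem.2)
      rw [← hc] at h2 ⊢
      rw [map_smul, hop_pow, mul_one] at h2
      rcases smul_eq_zero.1 h2 with h3 | h3
      · rw [h3, zero_smul]
      · exact absurd (map_inj hf h3) (xi_ne hHL h1)
    · apply (Q.hardLef p 0 (Nat.zero_le _)).1 _ hmem
      rw [Nat.sub_zero, S.pow_h_projP, hop_pow, mul_one]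
      have h3 : W.cl X D ^ p = 0 := by
        have := xi_mem (W := W) hD p
        rw [W.gr_eq_bot X _ (by omega)] at this
        exact (Submodule.mem_bot _).1 this
      rw [h3, map_zero, map_zero]
  have h2 : (1 : W.H Y) = proj Q.isInternal X.dim 1 := by
    conv_lhs => rw [S.sumP (1 : W.H Y)]
    by_cases hX : X.dim < 2 * Y.dim + 1
    · rw [Finset.sum_eq_single X.dim]
      · intro p _ hp; exact hne p hp
      · intro h'; exact absurd (Finset.mem_range.2 hX) h'
    · rw [Finset.sum_eq_zero]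
      · have h3 := proj_mem Q.isInternal X.dim (1 : W.H Y)
        rw [dbP Q hD _ (by omega)] at h3
        exact ((Submodule.mem_bot _).1 h3).symm
      · intro p hp
        apply hne
        have := Finset.mem_range.1 hp
        omega
  rw [h2]
  exact proj_mem _ _ _

lemma map_piece (a : W.H X) : W.map f a ∈ Q.piece X.dim := by
  have := Q.smul_mem X.dim a 1 (one_piece Q hD hE hHL hf h1)
  rwa [mul_one] at this

lemma dim_le : X.dim ≤ Y.dim := by
  by_contra hlt
  have h2 := W.map_mem f (xi_mem (W := W) hD X.dim)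
  rw [W.gr_eq_bot Y _ (by omega)] at h2
  exact xi_ne hHL h1 (map_inj hf ((Submodule.mem_bot _).1 h2))

/-- The relative hard Lefschetz theorem applied to the top class of `X`. -/
lemma proj_top_ne {r : ℕ} (hr : Y.dim = X.dim + r) :
    proj Q.isInternal (X.dim + 2 * r) (W.cl Y E ^ r * W.map f (W.cl X D ^ X.dim)) ≠ 0 := by
  intro h0
  have S := setup Q hD hE rfl
  have hmem := map_piece Q hD hE hHL hf h1 (W.cl X D ^ X.dim)
  rw [← eop_pow, ← top_pow' Q.isInternal (dbP Q hD) (deP Q hD) hmem] at h0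
  have h2 := (S.rl X.dim (by omega)).1 _ hmem (by
    rw [show Y.dim - X.dim = r by omega]; exact h0)
  exact xi_ne hHL h1 (map_inj hf h2)

lemma omega_mem {r : ℕ} (hr : Y.dim = X.dim + r) :
    W.cl Y E ^ r * W.map f (W.cl X D ^ X.dim) ∈ W.gr Y (2 * Y.dim) := by
  have := W.mul_mem (xi_mem (W := W) hE r) (W.map_mem f (xi_mem (W := W) hD X.dim))
  rwa [show 2 * r + 2 * X.dim = 2 * Y.dim by omega] at this

lemma top_piece {r : ℕ} (hr : Y.dim = X.dim + r) {p : ℕ} (hp : p ≠ X.dim + 2 * r) :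
    Q.piece p ⊓ W.gr Y (2 * Y.dim) = ⊥ := by
  rw [eq_bot_iff]
  rintro z ⟨hz, hzt⟩
  rw [Submodule.mem_bot]
  by_contra hz0
  set ω := W.cl Y E ^ r * W.map f (W.cl X D ^ X.dim) with hω
  have hω0 := proj_top_ne Q hD hE hHL hf h1 hr
  have hωm := omega_mem Q hD hE hHL hf h1 hr
  have htz : W.tr Y z ≠ 0 := fun h => hz0 (tr_top_inj hzt h)
  have h2 : ω = (W.tr Y ω / W.tr Y z) • z := by
    rw [← sub_eq_zero]
    apply tr_top_inj (Submodule.sub_mem _ hωm (Submodule.smul_mem _ _ hzt))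
    rw [map_sub, map_smul, smul_eq_mul, div_mul_cancel₀ _ htz, sub_self]
  apply hω0
  rw [← hω, h2, map_smul, proj_ne Q.isInternal hz hp, smul_zero]

lemma tr_piece {r : ℕ} (hr : Y.dim = X.dim + r) {p : ℕ} (hp : p ≠ X.dim + 2 * r) {x : W.H Y}
    (hx : x ∈ Q.piece p) : W.tr Y x = 0 := by
  have S := setup Q hD hE rfl
  rw [S.sumG x, map_sum]
  apply Finset.sum_eq_zero
  intro j _
  by_cases hj : j = 2 * Y.dim
  · have h2 : proj S.igr j x ∈ Q.piece p ⊓ W.gr Y (2 * Y.dim) :=
      ⟨dhom Q p j x hx, hj ▸ proj_mem _ _ _⟩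
    rw [top_piece Q hD hE hHL hf h1 hr hp] at h2
    rw [(Submodule.mem_bot _).1 h2, map_zero]
  · exact W.tr_eq_zero (proj_mem _ j x) hj

lemma push_piece {r : ℕ} (hr : Y.dim = X.dim + r) {p : ℕ} (hp : p ≠ X.dim + 2 * r) {x : W.H Y}
    (hx : x ∈ Q.piece p) : W.push f x = 0 := by
  apply nondeg_right
  intro b
  rw [Pool.Agent.W534.tr_mul_push]
  exact tr_piece Q hD hE hHL hf h1 hr hp (Q.smul_mem p b x hx)

lemma exists_delta {r : ℕ} (hr : Y.dim = X.dim + r) : ∃ δ : W.K, δ ≠ 0 ∧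
    ∀ u : W.H X, W.push f ((eop W Y E ^ r) (W.map f u)) = δ • u := by
  have h2 := W.push_mem f (xi_mem (W := W) hE r)
  rw [show ((2 * r : ℕ) : ℤ) + 2 * ((X.dim : ℤ) - Y.dim) = ((0 : ℕ) : ℤ) by omega, grZ_natCast,
    W.gr_zero, Submodule.mem_span_singleton] at h2
  obtain ⟨δ, hδ⟩ := h2
  have h3 : ∀ u : W.H X, W.push f ((eop W Y E ^ r) (W.map f u)) = δ • u := by
    intro u
    rw [eop_pow, W.push_mul, ← hδ, smul_mul_assoc, one_mul]
  refine ⟨δ, ?_, h3⟩
  rintro rfl
  apply proj_top_ne Q hD hE hHL hf h1 hr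
  have h4 : W.cl Y E ^ r * W.map f (W.cl X D ^ X.dim) = 0 := by
    apply tr_top_inj (omega_mem Q hD hE hHL hf h1 hr)
    rw [← W.tr_push, ← hδ, zero_smul, zero_mul, map_zero]
  rw [h4, map_zero]

/-- The linear algebra of the map. -/
lemma exists_mapSetup {r : ℕ} (hr : Y.dim = X.dim + r) : ∃ δ : W.K,
    MapSetup (W.gr Y) Q.piece (W.gr X) X.dim r (hop W f D) (eop W Y E)
      (LinearMap.mulLeft W.K (W.cl X D)) (W.map f).toLinearMap (W.push f) δ := by
  obtain ⟨δ, hδ, hδ'⟩ := exists_delta Q hD hE hHL hf h1 hr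
  refine ⟨δ, ?_⟩
  exact
  { iU := W.isInternal X
    bU := fun i hi => W.gr_eq_bot X i (by omega)
    hUgr := isHom_mulLeft W hD
    hlU := hHL
    φP := map_piece Q hD hE hHL hf h1
    φgr := fun i u hu => W.map_mem f hu
    hφ := fun u => by simp
    ψP := fun p hp v hv => push_piece Q hD hE hHL hf h1 hr hp hv
    ψφ := hδ'
    δ0 := hδ }

end

/-- From injective combinations of correspondences to the lowering operators of all classes with
hard Lefschetz. -/
lemma exists_lower {L : Module.End W.K (W.H Y)} (hL : L ∈ KOp W Y Y 1)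
    (hHL : HardLef (W.gr Y) Y.dim L)
    (hν : ∀ c ≤ Y.dim, ∃ ν ∈ KOp W Y Y (-c), ∀ a ∈ W.gr Y (Y.dim + c), ν a = 0 → a = 0) :
    ∃ F ∈ KOp W Y Y (-1), Sl2 (wt (W.isInternal Y) Y.dim) L F := by
  have hR := (rop_opAlg (W := W) (X := Y))
  have hL' : L ∈ KS (ROp W Y) 1 := mem_KS_iff.2 hL
  obtain ⟨Φ, hΦ, hLam⟩ := hR.kspan.exists_lam (W.isInternal Y) W_hbd hL' hHL (by
    intro c hc
    obtain ⟨ν, hν, hinj⟩ := hν c hc
    exact hR.exists_theta_of_inj hL' hHL hc (mem_KS_iff.2 hν) hinj)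
  have hLh : IsHom (W.gr Y) 2 L := by simpa using hR.kspan.hom hL'
  obtain ⟨F, t, -, hF⟩ := exists_sl2 (W.isInternal Y) hLh W_hbd hHL
  exact ⟨F, mem_KS_iff.1 (lower_of_lam hR.kspan (W.isInternal Y) W_hbd hL' hHL hΦ hLam hF), t⟩

/-- **Descent of injective combinations.** -/
theorem inj_of_dominant (Q : PerverseDecomposition W f D E) (hD : X.IsCyc 1 D)
    (hE : Y.IsCyc 1 E) (hHL : HardLefschetz W X D) (hf : IsDominant ops f)
    (hν : ∀ c ≤ Y.dim, ∃ ν ∈ KOp W Y Y (-c), ∀ a ∈ W.gr Y (Y.dim + c), ν a = 0 → a = 0) :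
    ∀ c ≤ X.dim, ∃ ν ∈ KOp W X X (-c), ∀ a ∈ W.gr X (X.dim + c), ν a = 0 → a = 0 := by
  intro c hc
  by_cases h1 : (1 : W.H X) = 0
  · refine ⟨0, Submodule.zero_mem _, fun a _ _ => ?_⟩
    rw [← mul_one a, h1, mul_zero]
  obtain ⟨r, hr⟩ : ∃ r, Y.dim = X.dim + r := ⟨Y.dim - X.dim, by
    have := dim_le Q hD hE hHL hf h1; omega⟩
  have S := setup Q hD hE hr
  obtain ⟨δ, M⟩ := exists_mapSetup Q hD hE hHL hf h1 hr
  have hdim : ∀ c ≤ X.dim + r, Module.finrank W.K (W.gr Y (X.dim + r - c)) =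
      Module.finrank W.K (W.gr Y (X.dim + r + c)) := by
    intro c hc
    have := betti_symm (X := Y) W (i := X.dim + r - c) (by omega)
    rw [show 2 * Y.dim - (X.dim + r - c) = X.dim + r + c by omega] at this
    exact this.symm
  obtain ⟨s, hs, hl1, hl2, hcore⟩ := M.core S hdim c
  have hk1 : hop W f D + s ^ 2 • eop W Y E ∈ KOp W Y Y 1 :=
    Submodule.add_mem _ (kop_hop hD) (Submodule.smul_mem _ _ (Pool.Agent.W534.kop_L hE))
  have hk2 : hop W f D + (2 * s) ^ 2 • eop W Y E ∈ KOp W Y Y 1 :=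
    Submodule.add_mem _ (kop_hop hD) (Submodule.smul_mem _ _ (Pool.Agent.W534.kop_L hE))
  obtain ⟨F1, hF1, t1⟩ := exists_lower hk1 (by rw [hr]; exact hl1) hν
  obtain ⟨F2, hF2, t2⟩ := exists_lower hk2 (by rw [hr]; exact hl2) hν
  set Ξ := (3 : W.K)⁻¹ • ((4 : W.K) • F2 - F1) with hΞ
  have hΞk : Ξ ∈ KOp W Y Y (-1) :=
    Submodule.smul_mem _ _ (Submodule.sub_mem _ (Submodule.smul_mem _ _ hF2) hF1)
  have hR := (rop_opAlg (W := W) (X := Y)).kspan
  have hpow : ∀ {d : ℤ} {T : Module.End W.K (W.H Y)} (_ : T ∈ KOp W Y Y d) (j : ℕ),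
      T ^ j ∈ KOp W Y Y (j * d) := by
    intro d T hT j
    exact mem_KS_iff.1 (hR.pow (mem_KS_iff.2 hT) j)
  refine ⟨W.push f ∘ₗ (eop W Y E ^ r) ∘ₗ (Ξ ^ c) ∘ₗ (W.map f).toLinearMap, ?_, ?_⟩
  · have k1 := (Pool.Agent.W534.qop_pull (W := W) f).kop
    have k2 := (Pool.Agent.W534.qop_push (W := W) f).kop
    have k3 := hpow hΞk c
    have k4 := hpow (Pool.Agent.W534.kop_L (W := W) hE) r
    refine KOp.cast (KOp.comp k2 (KOp.comp k4 (KOp.comp k3 k1))) ?_
    rw [hr]; push_cast; ring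
  · intro a ha h0
    have hw : ∀ m (hm : Y.dim = m), wt (W.isInternal Y) Y.dim = wt (setup Q hD hE hm).igr m := by
      intro m hm; subst hm; rfl
    apply hcore F1 F2 _ _ a ha h0
    · rw [← hw _ hr]; exact t1
    · rw [← hw _ hr]; exact t2

/-- **The Lefschetz standard conjecture descends to dominated varieties.** -/
theorem lefschetzB_of_dominant (Q : PerverseDecomposition W f D E) (hD : X.IsCyc 1 D)
    (hE : Y.IsCyc 1 E) (hHL : HardLefschetz W X D) (hf : IsDominant ops f) {E' : Y.Cycles}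
    (hE' : Y.IsCyc 1 E') (hHL' : HardLefschetz W Y E') (hB : LefschetzB W Y E') :
    LefschetzB W X D :=
  lefschetzB_of_inj hD hHL
    (inj_of_dominant Q hD hE hHL hf (inj_of_lefschetzB hE' hHL' hB))

end Pool.Agent.W498.Dom
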